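import Pool.Agent.Lib.MP_6ec4b3_lc.Interfaces

/-!
# Module LOW: the lower bound, valid for all choices of the forms
-/

namespace Pool.Agent.Polya.H15

open Pool.Agent.Polya

/-- The sign character of the field with two elements. -/
noncomputable def chi (p : ZMod 2) : ℝ := if p = 0 then 1 else -1

lemma chi_zero : chi 0 = 1 := by simp [chi]

lemma chi_add (p q : ZMod 2) : chi (p + q) = chi p * chi q := by
  unfold chi
  revert p q
  have h : ∀ p q : ZMod 2, (p + q = 0 ↔ ((p = 0 ∧ q = 0) ∨ (p ≠ 0 ∧ q ≠ 0))) := by decide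
  intro p q
  by_cases hp : p = 0 <;> by_cases hq : q = 0 <;> simp [h, hp, hq]

lemma chi_sum {ι : Type*} (s : Finset ι) (f : ι → ZMod 2) :
    chi (∑ i ∈ s, f i) = ∏ i ∈ s, chi (f i) := by
  classical
  induction s using Finset.induction_on with
  | empty => simp [chi_zero]
  | insert a s ha ih => rw [Finset.sum_insert ha, Finset.prod_insert ha, chi_add, ih]

/-- The sum of a character is not negative. -/
lemma sum_chi_nonneg {l : ℕ} (φ : Fin l → ZMod 2) :
    0 ≤ ∑ y : Fin l → ZMod 2, chi (dot φ y) := by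
  have h : ∑ y : Fin l → ZMod 2, chi (dot φ y) = ∏ a : Fin l, ∑ z : ZMod 2, chi (φ a * z) := by
    rw [Finset.prod_univ_sum, Fintype.piFinset_univ]
    refine Finset.sum_congr rfl fun y _ => ?_
    rw [dot, chi_sum]
  rw [h]
  refine Finset.prod_nonneg fun a _ => ?_
  have h2 : ∀ p : ZMod 2, 0 ≤ ∑ z : ZMod 2, chi (p * z) := by
    intro p
    have : ∑ z : ZMod 2, chi (p * z) = chi (p * 0) + chi (p * 1) :=
      Fin.sum_univ_two fun z : ZMod 2 => chi (p * z)
    rw [this, mul_zero, mul_one, chi_zero]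
    unfold chi
    split_ifs <;> norm_num
  exact h2 _

lemma dot_add {l : ℕ} (φ ψ y : Fin l → ZMod 2) : dot (φ + ψ) y = dot φ y + dot ψ y := by
  simp [dot, add_mul, Finset.sum_add_distrib]

lemma dot_zero_left {l : ℕ} (y : Fin l → ZMod 2) : dot 0 y = 0 := by simp [dot]

lemma dot_zero_right {l : ℕ} (φ : Fin l → ZMod 2) : dot φ 0 = 0 := by simp [dot]

lemma sum_main {l : ℕ} {ι : Type*} (s : Finset ι) (ψ : ι → Fin l → ZMod 2) (α β : ι → ℝ)
    (hα : ∀ i, 0 ≤ α i) (hβ : ∀ i, 0 ≤ β i) :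
    (∀ φ : Fin l → ZMod 2,
      0 ≤ ∑ y : Fin l → ZMod 2, chi (dot φ y) * ∏ i ∈ s, (α i + β i * chi (dot (ψ i) y))) ∧
    (2 : ℝ) ^ l * ∏ i ∈ s, α i ≤
      ∑ y : Fin l → ZMod 2, ∏ i ∈ s, (α i + β i * chi (dot (ψ i) y)) := by
  classical
  induction s using Finset.induction_on with
  | empty =>
    refine ⟨fun φ => ?_, ?_⟩
    · simpa using sum_chi_nonneg φ
    · simp
  | insert a s ha ih =>
    obtain ⟨ih1, ih2⟩ := ih
    have key : ∀ φ : Fin l → ZMod 2,
        ∑ y : Fin l → ZMod 2, chi (dot φ y) *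
          ∏ i ∈ insert a s, (α i + β i * chi (dot (ψ i) y)) =
        α a * ∑ y : Fin l → ZMod 2, chi (dot φ y) * ∏ i ∈ s, (α i + β i * chi (dot (ψ i) y)) +
        β a * ∑ y : Fin l → ZMod 2, chi (dot (φ + ψ a) y) *
          ∏ i ∈ s, (α i + β i * chi (dot (ψ i) y)) := by
      intro φ
      rw [Finset.mul_sum, Finset.mul_sum, ← Finset.sum_add_distrib]
      refine Finset.sum_congr rfl fun y _ => ?_
      rw [Finset.prod_insert ha, dot_add, chi_add]
      ring
    refine ⟨fun φ => ?_, ?_⟩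
    · rw [key]
      exact add_nonneg (mul_nonneg (hα a) (ih1 φ)) (mul_nonneg (hβ a) (ih1 _))
    · have h0 := key 0
      simp only [dot_zero_left, chi_zero, one_mul, zero_add] at h0
      rw [h0, Finset.prod_insert ha]
      have h1 := ih1 (ψ a)
      have h2 := mul_le_mul_of_nonneg_left ih2 (hα a)
      have h3 := mul_nonneg (hβ a) h1
      nlinarith [h2, h3]

/-! ### The weights -/

lemma F00_pos {k : ℕ} (hk : 1 ≤ k) : (0 : ℝ) < (F k 0 0 : ℝ) := by
  have : (0 : ℝ) < (k : ℝ) := by exact_mod_cast hk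
  have h : F k 0 0 = k ^ 4 + k ^ 2 := by simp [F]
  rw [h]
  push_cast
  positivity

lemma fa_le {k : ℕ} : fa k ≤ 1 := by
  unfold fa
  rw [div_le_one (by positivity)]
  nlinarith [sq_nonneg ((k : ℝ) - 1)]

lemma fa_nonneg {k : ℕ} : 0 ≤ fa k := by
  unfold fa
  positivity

lemma fb_le {k : ℕ} (hk : 1 ≤ k) : fb k ≤ 1 := by
  have : (1 : ℝ) ≤ (k : ℝ) := by exact_mod_cast hk
  unfold fb
  rw [div_le_one (by positivity)]
  nlinarith

lemma fb_nonneg {k : ℕ} : 0 ≤ fb k := by
  unfold fb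
  positivity

lemma F_left {k : ℕ} (hk : 1 ≤ k) (p : ZMod 2) :
    (F k p 0 : ℝ) = F k 0 0 * ((1 + fa k) / 2 + (1 - fa k) / 2 * chi p) := by
  have hk' : (1 : ℝ) ≤ (k : ℝ) := by exact_mod_cast hk
  have hs : (k : ℝ) ^ 2 + 1 ≠ 0 := by positivity
  by_cases hp : p = 0
  · subst hp
    rw [chi_zero]
    ring
  · have h1 : F k p 0 = 2 * k ^ 3 := by simp [F, hp]
    have h2 : F k 0 0 = k ^ 4 + k ^ 2 := by simp [F]
    rw [h1, h2]
    simp only [chi, hp, if_false, fa]
    push_cast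
    field_simp
    ring

lemma F_right {k : ℕ} (hk : 1 ≤ k) (q : ZMod 2) :
    (F k 0 q : ℝ) = F k 0 0 * ((1 + fb k) / 2 + (1 - fb k) / 2 * chi q) := by
  have hk' : (1 : ℝ) ≤ (k : ℝ) := by exact_mod_cast hk
  have hs : (k : ℝ) ^ 2 + 1 ≠ 0 := by positivity
  by_cases hq : q = 0
  · subst hq
    rw [chi_zero]
    ring
  · have h1 : F k 0 q = 2 * k ^ 2 := by simp [F, hq]
    have h2 : F k 0 0 = k ^ 4 + k ^ 2 := by simp [F]
    rw [h1, h2]
    simp only [chi, hq, if_false, fb]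
    push_cast
    field_simp
    ring

/-- The weights of the vertex `v`. -/
noncomputable def G {n l t : ℕ} (k : ℕ) (ω : Om n l t) (v : Fin n) (y : Fin l → ZMod 2) : ℝ :=
  (∏ a, (F k (y a) 0 : ℝ)) * ((∏ q : Fin n × Fin t, (F k (dot (ω (v, q.1, q.2)).1 y) 0 : ℝ)) *
    ∏ q : Fin n × Fin t, (F k 0 (dot (ω (q.1, v, q.2)).2 y) : ℝ))

lemma dot_single {l : ℕ} (a : Fin l) (y : Fin l → ZMod 2) : dot (Pi.single a 1) y = y a := by
  unfold dot
  rw [Finset.sum_eq_single a]
  · simp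
  · intro b _ hb
    simp [Pi.single_eq_of_ne hb]
  · intro h
    exact absurd (Finset.mem_univ a) h

lemma G_nonneg {n l t : ℕ} (k : ℕ) (ω : Om n l t) (v : Fin n) (y : Fin l → ZMod 2) :
    0 ≤ G k ω v y := by
  unfold G
  positivity

lemma G_zero {n l t : ℕ} (k : ℕ) (ω : Om n l t) (v : Fin n) :
    G k ω v 0 = (F k 0 0 : ℝ) ^ (l + 2 * (n * t)) := by
  unfold G
  simp only [dot_zero_right, Pi.zero_apply, Finset.prod_const, Finset.card_univ, Fintype.card_fin,
    Fintype.card_prod]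
  ring

lemma G_sum {n l t : ℕ} {k : ℕ} (hk : 1 ≤ k) (ω : Om n l t) (v : Fin n) :
    (F k 0 0 : ℝ) ^ (l + 2 * (n * t)) * lam k n l t ≤ ∑ y : Fin l → ZMod 2, G k ω v y := by
  have hF := F00_pos hk
  let ι := Fin l ⊕ (Fin n × Fin t) ⊕ (Fin n × Fin t)
  let ψ : ι → Fin l → ZMod 2 := fun i => match i with
    | .inl a => Pi.single a 1
    | .inr (.inl q) => (ω (v, q.1, q.2)).1
    | .inr (.inr q) => (ω (q.1, v, q.2)).2
  let α : ι → ℝ := fun i => match i with
    | .inl _ => (1 + fa k) / 2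
    | .inr (.inl _) => (1 + fa k) / 2
    | .inr (.inr _) => (1 + fb k) / 2
  let β : ι → ℝ := fun i => match i with
    | .inl _ => (1 - fa k) / 2
    | .inr (.inl _) => (1 - fa k) / 2
    | .inr (.inr _) => (1 - fb k) / 2
  have ha0 := fa_nonneg (k := k)
  have hb0 := fb_nonneg (k := k)
  have ha1 := fa_le (k := k)
  have hb1 := fb_le hk
  have hα : ∀ i, 0 ≤ α i := by
    rintro (a | q | q) <;> simp only [α] <;> positivity
  have hβ : ∀ i, 0 ≤ β i := by
    rintro (a | q | q) <;> simp only [β] <;> linarith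
  have hmain := (sum_main Finset.univ ψ α β hα hβ).2
  have hG : ∀ y, G k ω v y = (F k 0 0 : ℝ) ^ (l + 2 * (n * t)) *
      ∏ i, (α i + β i * chi (dot (ψ i) y)) := by
    intro y
    rw [Fintype.prod_sum_type, Fintype.prod_sum_type]
    simp only [α, β, ψ, dot_single]
    unfold G
    have e1 := F_left hk
    have e2 := F_right hk
    generalize (F k 0 0 : ℝ) = c at e1 e2 ⊢
    simp only [e1, e2, Finset.prod_mul_distrib, Finset.prod_const,
      Finset.card_univ, Fintype.card_fin, Fintype.card_prod]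
    rw [two_mul, pow_add, pow_add]
    ring
  have hαp : (2 : ℝ) ^ l * ∏ i, α i = lam k n l t := by
    rw [Fintype.prod_sum_type, Fintype.prod_sum_type]
    simp only [α, Finset.prod_const, Finset.card_univ, Fintype.card_fin, Fintype.card_prod]
    unfold lam mu
    rw [← mul_assoc, ← mul_pow, ← mul_pow, mul_comm t n]
    congr 1
    · congr 1
      ring
    · congr 1
      ring
  calc (F k 0 0 : ℝ) ^ (l + 2 * (n * t)) * lam k n l t
      = (F k 0 0 : ℝ) ^ (l + 2 * (n * t)) * ((2 : ℝ) ^ l * ∏ i, α i) := by rw [hαp]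
    _ ≤ (F k 0 0 : ℝ) ^ (l + 2 * (n * t)) *
        ∑ y : Fin l → ZMod 2, ∏ i, (α i + β i * chi (dot (ψ i) y)) :=
        mul_le_mul_of_nonneg_left hmain (by positivity)
    _ = _ := by
        rw [Finset.mul_sum]
        exact Finset.sum_congr rfl fun y _ => (hG y).symm

/-- The term of a vector supported on a set without related pairs. -/
lemma term_eq {n l t : ℕ} (k : ℕ) (E : Fin n → Fin n → Bool) (ω : Om n l t)
    (I : Finset (Fin n)) (hI : ∀ u ∈ I, ∀ v ∈ I, E u v = false) (x : Fin n → Fin l → ZMod 2)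
    (hx : ∀ v, v ∉ I → x v = 0) :
    (((∏ v, ∏ a, F k (x v a) 0) *
      ∏ q : Ix n t, pw k (E q.1 q.2.1) (dot (ω q).1 (x q.1)) (dot (ω q).2 (x q.2.1)) : ℕ) : ℝ) =
      ∏ v, G k ω v (x v) := by
  have hpw : ∀ q : Ix n t, pw k (E q.1 q.2.1) (dot (ω q).1 (x q.1)) (dot (ω q).2 (x q.2.1)) =
      F k (dot (ω q).1 (x q.1)) 0 * F k 0 (dot (ω q).2 (x q.2.1)) := by
    intro q
    unfold pw
    split_ifs with hE
    · by_cases hu : q.1 ∈ I
      · have hv : q.2.1 ∉ I := by
          intro hv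
          rw [hI _ hu _ hv] at hE
          exact Bool.false_ne_true hE
        rw [hx _ hv, dot_zero_right]
      · rw [hx _ hu, dot_zero_right, mul_comm]
    · rfl
  rw [Finset.prod_congr rfl fun q _ => hpw q, Finset.prod_mul_distrib]
  push_cast
  unfold G
  rw [Finset.prod_mul_distrib, Finset.prod_mul_distrib]
  congr 1
  congr 1
  · rw [Fintype.prod_prod_type]
  · have hL : ∀ g : Fin n → Fin n → Fin t → ℝ, ∏ q : Ix n t, g q.1 q.2.1 q.2.2 =
        ∏ v : Fin n, ∏ q : Fin n × Fin t, g q.1 v q.2 := by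
      intro g
      rw [Fintype.prod_prod_type]
      have h1 : ∀ u : Fin n, ∏ y : Fin n × Fin t, g u y.1 y.2 = ∏ v : Fin n, ∏ i : Fin t, g u v i :=
        fun u => by rw [Fintype.prod_prod_type]
      have h2 : ∀ v : Fin n, ∏ y : Fin n × Fin t, g y.1 v y.2 = ∏ u : Fin n, ∏ i : Fin t, g u v i :=
        fun v => by rw [Fintype.prod_prod_type]
      simp only [h1, h2]
      rw [Finset.prod_comm]
    exact hL fun u v i => (F k 0 (dot (ω (u, v, i)).2 (x v)) : ℝ)

theorem low : LOW := by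
  intro k n l t hk E ω I hI
  have hF := F00_pos hk
  have hlam : 0 ≤ lam k n l t := by
    have ha0 := fa_nonneg (k := k)
    have hb0 := fb_nonneg (k := k)
    unfold lam mu
    positivity
  let s : Fin n → Finset (Fin l → ZMod 2) := fun v => if v ∈ I then Finset.univ else {0}
  have h1 : (ZZ k n l t E ω : ℝ) = ∑ x : Fin n → Fin l → ZMod 2,
      (((∏ v, ∏ a, F k (x v a) 0) *
      ∏ q : Ix n t, pw k (E q.1 q.2.1) (dot (ω q).1 (x q.1)) (dot (ω q).2 (x q.2.1)) : ℕ) : ℝ) := by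
    unfold ZZ
    push_cast
    rfl
  have h2 : ∑ x ∈ Fintype.piFinset s, ∏ v, G k ω v (x v) ≤ (ZZ k n l t E ω : ℝ) := by
    rw [h1]
    calc ∑ x ∈ Fintype.piFinset s, ∏ v, G k ω v (x v)
        = ∑ x ∈ Fintype.piFinset s, (((∏ v, ∏ a, F k (x v a) 0) *
      ∏ q : Ix n t, pw k (E q.1 q.2.1) (dot (ω q).1 (x q.1)) (dot (ω q).2 (x q.2.1)) : ℕ) : ℝ) := by
          refine Finset.sum_congr rfl fun x hx => (term_eq k E ω I hI x fun v hv => ?_).symm
          have := (Fintype.mem_piFinset.mp hx) v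
          simpa [s, hv] using this
      _ ≤ _ := Finset.sum_le_univ_sum_of_nonneg fun x => Nat.cast_nonneg _
  rw [← Finset.prod_univ_sum] at h2
  refine le_trans ?_ h2
  have h3 : (F k 0 0 : ℝ) ^ nblocks n l t * lam k n l t ^ I.card =
      ∏ v : Fin n, ((F k 0 0 : ℝ) ^ (l + 2 * (n * t)) * if v ∈ I then lam k n l t else 1) := by
    rw [Finset.prod_mul_distrib, Finset.prod_const, Finset.card_univ, Fintype.card_fin, ← pow_mul,
      Finset.prod_ite_mem, Finset.univ_inter, Finset.prod_const]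
    congr 2
    unfold nblocks
    ring
  rw [h3]
  refine Finset.prod_le_prod (fun v _ => ?_) fun v _ => ?_
  · split_ifs <;> positivity
  · by_cases hv : v ∈ I
    · simp only [s, hv, if_true]
      exact G_sum hk ω v
    · simp only [s, hv, if_false, Finset.sum_singleton, mul_one]
      exact (G_zero k ω v).ge

end Pool.Agent.Polya.H15
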